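import Pool.Agent.Y45.MON.StmG
import Pool.Agent.TH54.BU.Turn

/-!
# Two broken lines with `E`-close ends visit the same lines (job MON G3, helper484)
-/

set_option autoImplicit false

namespace Pool.Agent.Y484.MON

open Pool.Agent.TH54.BU
open Pool.Agent.Y45.MON

/-! ### The combinatorial part -/

/-- An almost surjective order preserving matching is a translation in the middle. -/
theorem match_comb {M : ℕ → ℕ → Prop} {e m m' : ℕ}
    (ex : ∀ k, e ≤ k → k + 1 + e ≤ m → ∃ l < m', M k l)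
    (ex' : ∀ l, e ≤ l → l + 1 + e ≤ m' → ∃ k < m, M k l)
    (ord : ∀ k k' l l', M k l → M k' l' → e ≤ k → k < k' → l < l')
    (ord' : ∀ k k' l l', M k l → M k' l' → e ≤ l → l < l' → k < k') :
    ∃ σ : ℤ, ∀ k : ℕ, 2 * e ≤ k → k + 1 + 2 * e ≤ m →
      ∃ l : ℕ, (l : ℤ) = k + σ ∧ l < m' ∧ M k l := by
  classical
  by_cases hm : 4 * e + 1 ≤ m
  · have ex1 : ∀ k, ∃ l, e ≤ k → k + 1 + e ≤ m → l < m' ∧ M k l := by
      intro k
      by_cases h : e ≤ k ∧ k + 1 + e ≤ m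
      · obtain ⟨l, h1, h2⟩ := ex k h.1 h.2
        exact ⟨l, fun _ _ => ⟨h1, h2⟩⟩
      · exact ⟨0, fun h1 h2 => absurd ⟨h1, h2⟩ h⟩
    choose l hl using ex1
    -- strict growth
    have grow : ∀ d k, e ≤ k → k + d + 1 + e ≤ m → l k + d ≤ l (k + d) := by
      intro d
      induction d with
      | zero => intro k _ _; simp
      | succ d ih =>
        intro k h1 h2
        have h3 := ih k h1 (by omega)
        have h4 := ord _ _ _ _ (hl (k + d) (by omega) (by omega)).2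
          (hl (k + d + 1) (by omega) (by omega)).2 (by omega) (by omega)
        rw [← add_assoc k d 1]
        omega
    -- no gaps
    have succ : ∀ k, 2 * e ≤ k → k + 2 + 2 * e ≤ m → l (k + 1) = l k + 1 := by
      intro k h1 h2
      have h3 := grow 1 k (by omega) (by omega)
      by_contra hne
      have h4 : l k + 1 < l (k + 1) := by omega
      have h5 := grow (k - e) e le_rfl (by omega)
      rw [show e + (k - e) = k by omega] at h5
      have h6 := grow (m - 1 - e - (k + 1)) (k + 1) (by omega) (by omega)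
      rw [show k + 1 + (m - 1 - e - (k + 1)) = m - 1 - e by omega] at h6
      have h7 := (hl (m - 1 - e) (by omega) (by omega)).1
      obtain ⟨k1, -, h8⟩ := ex' (l k + 1) (by omega) (by omega)
      have h9 := ord' _ _ _ _ (hl k (by omega) (by omega)).2 h8 (by omega) (by omega)
      have h10 := ord' _ _ _ _ h8 (hl (k + 1) (by omega) (by omega)).2 (by omega) h4
      omega
    refine ⟨(l (2 * e) : ℤ) - 2 * e, fun k h1 h2 => ?_⟩
    obtain ⟨d, rfl⟩ : ∃ d, k = 2 * e + d := ⟨k - 2 * e, by omega⟩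
    have key : ∀ d, 2 * e + d + 1 + 2 * e ≤ m → l (2 * e + d) = l (2 * e) + d := by
      intro d
      induction d with
      | zero => intro _; rfl
      | succ d ih =>
        intro h
        rw [← add_assoc, succ (2 * e + d) (by omega) (by omega), ih (by omega)]
        omega
    refine ⟨l (2 * e + d), ?_, (hl _ (by omega) (by omega)).1, (hl _ (by omega) (by omega)).2⟩
    rw [key d h2]
    push_cast
    ring
  · exact ⟨0, fun k h1 h2 => absurd h2 (by omega)⟩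

/-! ### Counting lines -/

section count

variable {G : Type} [Group G] {H : GH G} {c θ T : ℕ} (L : LS H c θ T)

/-- Different lines with large projections of `p` and `q` are crossed one after the other. -/
theorem count {E : GH G} {Θ : ℕ} (C : L.Cone E Θ) {p q : G} {i : L.ι} {w : ℕ → G} {a b : ℕ}
    (hD : ∀ j, a ≤ j → j < b → 2 * Θ + θ + 1 ≤ L.D i (w j) p q)
    (hne : ∀ j j', j < j' → (w j)⁻¹ * w j' ∉ Subgroup.zpowers (L.x i)) :
    b ≤ a + E.d p q := by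
  classical
  obtain ⟨γ, h0, h1, hg⟩ := E.rg_geod p q
  have ex : ∀ j, ∃ r, a ≤ j → j < b → r < E.d p q ∧ L.On i (w j) (γ r) ∧
      L.On i (w j) (γ (r + 1)) ∧ θ < L.D i (w j) (γ r) (γ (r + 1)) := by
    intro j
    by_cases h : a ≤ j ∧ j < b
    · have hD' := hD j h.1 h.2
      rw [← h0, ← h1] at hD'
      obtain ⟨r, hr, r1, r2⟩ := C.e2 i (w j) γ _ hg (by omega)
      have e1 := LS.tr_left C hg hr r2
      have e2 := LS.tr_right C hg hr r1
      have e3 := L.rg_D_tri i (w j) (γ 0) (γ r) (γ (E.d p q))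
      have e4 := L.rg_D_tri i (w j) (γ r) (γ (r + 1)) (γ (E.d p q))
      exact ⟨r, fun _ _ => ⟨hr, r1, r2, by omega⟩⟩
    · exact ⟨0, fun h1 h2 => absurd ⟨h1, h2⟩ h⟩
  choose r hr using ex
  have key : ∀ j j', a ≤ j → j < b → a ≤ j' → j' < b → j < j' → r j ≠ r j' := by
    intro j j' a1 a2 a3 a4 hlt he
    obtain ⟨-, -, -, b4⟩ := hr j a1 a2
    obtain ⟨-, ⟨t, ht⟩, ⟨t', ht'⟩, -⟩ := hr j' a3 a4
    rw [he] at b4
    have ht1 : L.x i ^ t = (w j')⁻¹ * γ (r j') := ht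
    have ht2 : L.x i ^ t' = (w j')⁻¹ * γ (r j' + 1) := ht'
    have e1 : γ (r j') = w j' * L.x i ^ t := by rw [ht1]; group
    have e2 : γ (r j' + 1) = w j' * L.x i ^ t' := by rw [ht2]; group
    rw [e1, e2] at b4
    exact hne j j' hlt (L.rg_same b4).2
  have hc : (Finset.Ico a b).card ≤ (Finset.range (E.d p q)).card := by
    refine Finset.card_le_card_of_injOn r ?_ ?_
    · intro j hj
      have hj' := Finset.mem_Ico.1 (Finset.mem_coe.1 hj)
      exact Finset.mem_coe.2 (Finset.mem_range.2 (hr j hj'.1 hj'.2).1)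
    · intro j hj j' hj' he
      have h1 := Finset.mem_Ico.1 (Finset.mem_coe.1 hj)
      have h2 := Finset.mem_Ico.1 (Finset.mem_coe.1 hj')
      rcases lt_trichotomy j j' with h | h | h
      · exact absurd he (key j j' h1.1 h1.2 h2.1 h2.2 h)
      · exact h
      · exact absurd he.symm (key j' j h2.1 h2.2 h1.1 h1.2 h)
  rw [Nat.card_Ico, Finset.card_range] at hc
  omega

end count

/-! ### Windows of a broken line -/

/-- The windows of a broken line, with error `Q`. -/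
structure BW {G : Type} [Group G] {H : GH G} {c θ T : ℕ} (L : LS H c θ T) (i : L.ι) (f : ℕ → ℤ)
    (v : ℕ → G) (Q : ℕ) : Prop where
  v0 : v 0 = 1
  aft : ∀ (k l : ℕ) (t : ℤ), k < l →
    |L.s i (v (k + 1)) (v 0) (v (l + 1) * L.x i ^ t) - f k| ≤ 2 * Q
  bef : ∀ (k l m : ℕ) (t : ℤ), l < k → k + 1 ≤ m →
    |L.s i (v (k + 1)) (v (l + 1) * L.x i ^ t) (v m) - f k| ≤ 2 * Q
  pre : ∀ (k l : ℕ) (t : ℤ), l < k → |L.s i (v (k + 1)) (v 0) (v (l + 1) * L.x i ^ t)| ≤ 2 * Q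
  all : ∀ k m : ℕ, k + 1 ≤ m → |L.s i (v (k + 1)) (v 0) (v m) - f k| ≤ 2 * Q
  ne : ∀ k l : ℕ, k < l → (v (k + 1))⁻¹ * v (l + 1) ∉ Subgroup.zpowers (L.x i)
  oth : ∀ (j : L.ι) (w : G) (m : ℕ),
    (∀ k < m, ¬ (j = i ∧ (v (k + 1))⁻¹ * w ∈ Subgroup.zpowers (L.x i))) →
    |L.s j w (v 0) (v m)| ≤ 2 * Q

section geo

variable {G : Type} [Group G] {H : GH G} {c θ T : ℕ} (L : LS H c θ T)

theorem s_line (i : L.ι) (w : G) (t : ℤ) : L.s i (w * L.x i ^ t) w (w * L.x i ^ t) = t := by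
  rw [L.wf_s_base, L.az_s_line, inv_mul_cancel, L.az_kappa_one, sub_zero]

/-- the windows of a broken line with connectors of length at most `ρ` -/
theorem mkBW (hGen : GenStmt) (hPcb : PcbStmt) {i : L.ι} {cs : ℕ → G} {f : ℕ → ℤ} {v : ℕ → G}
    {ρ Θ : ℕ} (hB : Br L i cs f v) (hl : ∀ k, H.len (cs k) ≤ ρ)
    (hf : ∀ k, (cst L Θ ρ : ℤ) < |f k|) : BW L i f v (T * (ρ + c + θ) + L.thr) := by
  have hthr : L.thr = T * (2 * c + θ + 1) := rfl
  have hcst : cst L Θ ρ = 1000 * (T * (c + θ + Θ + ρ + 1) + 1) := rfl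
  have hPC : ∀ k, PC L i (T * (ρ + c + θ)) (cs k) := fun k =>
    hPcb G H c θ T L i (cs k) ρ (hB.nc k) (hl k)
  have hbig : 4 * (T * (ρ + c + θ)) + 8 * L.thr + 8 ≤ cst L Θ ρ := by
    rw [hthr, hcst]
    nlinarith [Nat.zero_le (T * ρ), Nat.zero_le (T * c), Nat.zero_le (T * θ), Nat.zero_le (T * Θ),
      Nat.zero_le T]
  obtain ⟨g1, g2, g3, g4, g5, g6, g7⟩ := hGen G H c θ T L i cs f v (T * (ρ + c + θ)) hB hPC
    (fun k => lt_of_le_of_lt (by exact_mod_cast hbig) (hf k))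
  set P := T * (ρ + c + θ) with hP
  have hline : ∀ k, L.s i (v (k + 1)) (v k * cs k) (v (k + 1)) = f k := by
    intro k
    rw [hB.vs k]
    exact s_line L i _ _
  refine ⟨hB.v0, ?_, ?_, ?_, ?_, g6, ?_⟩
  · intro k l t hkl
    have e1 := g3 k
    have e2 := g1 k l t hkl
    have e3 := L.wf_s_add i (v (k + 1)) (v 0) (v k * cs k) (v (l + 1) * L.x i ^ t)
    have e4 := L.wf_s_add i (v (k + 1)) (v k * cs k) (v (k + 1)) (v (l + 1) * L.x i ^ t)
    have e5 := hline k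
    rw [abs_le] at e1 e2 ⊢
    push_cast at e1 e2 ⊢
    constructor <;> linarith [e1.1, e1.2, e2.1, e2.2]
  · intro k l m t hlk hkm
    have e1 := g2 k l t hlk
    have e2 := g4 k m hkm
    have e3 := L.wf_s_add i (v (k + 1)) (v (l + 1) * L.x i ^ t) (v k * cs k) (v m)
    have e4 := L.wf_s_add i (v (k + 1)) (v k * cs k) (v (k + 1)) (v m)
    have e5 := hline k
    rw [abs_le] at e1 e2 ⊢
    push_cast at e1 e2 ⊢
    constructor <;> linarith [e1.1, e1.2, e2.1, e2.2]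
  · intro k l t hlk
    have e1 := g2 k l t hlk
    have e2 := g3 k
    have e3 := L.wf_s_add i (v (k + 1)) (v 0) (v (l + 1) * L.x i ^ t) (v k * cs k)
    rw [abs_le] at e1 e2 ⊢
    push_cast at e1 e2 ⊢
    constructor <;> linarith [e1.1, e1.2, e2.1, e2.2]
  · intro k m hkm
    have := g5 k m hkm
    push_cast at this ⊢
    exact this
  · intro j w m hjw
    have hthr0 : (0 : ℤ) ≤ L.thr := Int.natCast_nonneg _
    have hP0 : (0 : ℤ) ≤ P := Int.natCast_nonneg _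
    rcases g7 j w m hjw with h | ⟨q, hq, h⟩
    · push_cast
      linarith
    · have e1 := L.rg_s_le j w (v q) (v q * cs q)
      have e2 := L.az_lip j w (v q) (v q * cs q)
      have e3 : H.d (v q) (v q * cs q) ≤ ρ := by
        unfold GH.d
        rw [inv_mul_cancel_left]
        exact hl q
      have e4 : T * L.D j w (v q) (v q * cs q) ≤ P := by
        rw [hP]
        exact Nat.mul_le_mul_left _ (by omega)
      have e5 : ((T * L.D j w (v q) (v q * cs q) : ℕ) : ℤ) ≤ (P : ℤ) := by exact_mod_cast e4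
      push_cast at e5 ⊢
      have e6 := abs_sub_abs_le_abs_sub (L.s j w (v 0) (v m)) (L.s j w (v q) (v q * cs q))
      linarith

variable {L}

theorem on_iff {i : L.ι} {u y : G} (h : L.On i u y) : ∃ t : ℤ, y = u * L.x i ^ t := by
  obtain ⟨t, ht⟩ := h
  have ht' : L.x i ^ t = u⁻¹ * y := ht
  exact ⟨t, by rw [ht']; group⟩

/-- a large window gives a large distance of the projections -/
theorem D_big {i : L.ι} {u p q : G} {f : ℤ} {Q Θ : ℕ}
    (hf : ((10 * Q + 10 * (T * (Θ + θ + 1)) : ℕ) : ℤ) < |f|) (h : |L.s i u p q - f| ≤ 2 * Q) :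
    2 * Θ + θ + 1 ≤ L.D i u p q := by
  have h1 : ((T * (2 * Θ + θ) : ℕ) : ℤ) < |L.s i u p q| := by
    have h2 := abs_sub_abs_le_abs_sub f (L.s i u p q)
    rw [abs_sub_comm] at h2
    have h3 : T * (2 * Θ + θ) ≤ 10 * (T * (Θ + θ + 1)) := by nlinarith [Nat.zero_le T]
    have h4 : ((T * (2 * Θ + θ) : ℕ) : ℤ) ≤ ((10 * (T * (Θ + θ + 1)) : ℕ) : ℤ) := by
      exact_mod_cast h3
    have h5 : ((10 * Q + 10 * (T * (Θ + θ + 1)) : ℕ) : ℤ) =
      10 * (Q : ℤ) + ((10 * (T * (Θ + θ + 1)) : ℕ) : ℤ) := by push_cast; ring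
    have h6 : (0 : ℤ) ≤ Q := Int.natCast_nonneg _
    linarith
  exact L.rg_D_gt h1

section one

variable {E : GH G} {Θ Q : ℕ} {i : L.ι} {f : ℕ → ℤ} {v : ℕ → G}

/-- the line number `k` is far from the origin -/
theorem e1a (C : L.Cone E Θ) (h : BW L i f v Q)
    (hf : ∀ k, ((10 * Q + 10 * (T * (Θ + θ + 1)) : ℕ) : ℤ) < |f k|) (k : ℕ) (t : ℤ) :
    k ≤ E.d (v 0) (v (k + 1) * L.x i ^ t) := by
  have := count L C (p := v 0) (q := v (k + 1) * L.x i ^ t) (i := i) (w := fun j => v (j + 1))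
    (a := 0) (b := k) (fun j _ hj => D_big (hf j) (h.aft j k t hj)) h.ne
  omega

/-- the line number `k` is far from the other end -/
theorem e1b (C : L.Cone E Θ) (h : BW L i f v Q)
    (hf : ∀ k, ((10 * Q + 10 * (T * (Θ + θ + 1)) : ℕ) : ℤ) < |f k|) (k m : ℕ) (t : ℤ) :
    m ≤ k + 1 + E.d (v (k + 1) * L.x i ^ t) (v m) :=
  count L C (p := v (k + 1) * L.x i ^ t) (q := v m) (i := i) (w := fun j => v (j + 1))
    (a := k + 1) (b := m) (fun j hj hj' => D_big (hf j) (h.bef j k m t (by omega) (by omega))) h.ne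

theorem e2a (C : L.Cone E Θ) (h : BW L i f v Q)
    (hf : ∀ k, ((10 * Q + 10 * (T * (Θ + θ + 1)) : ℕ) : ℤ) < |f k|) {e k : ℕ} {g : G}
    (hg : E.len g ≤ e) (hk : e ≤ k) : L.D i (g * v (k + 1)) 1 g < Θ := by
  by_contra hc
  push Not at hc
  rw [← L.rg_D_symm] at hc
  obtain ⟨y, hy, hy'⟩ := L.rg_enter C hc
  obtain ⟨t, rfl⟩ := on_iff hy
  have h1 := e1a C h hf k t
  have h2 : E.d g (g * v (k + 1) * L.x i ^ t) = E.d (v 0) (v (k + 1) * L.x i ^ t) := by
    rw [h.v0, ← E.d_mul g 1, mul_one, mul_assoc]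
  rw [h2, E.d_one'] at hy'
  omega

theorem e2b (C : L.Cone E Θ) (h : BW L i f v Q)
    (hf : ∀ k, ((10 * Q + 10 * (T * (Θ + θ + 1)) : ℕ) : ℤ) < |f k|) {e k m : ℕ} {g q : G}
    (hq : E.d (g * v m) q ≤ e) (hk : k + 1 + e ≤ m) : L.D i (g * v (k + 1)) (g * v m) q < Θ := by
  by_contra hc
  push Not at hc
  obtain ⟨y, hy, hy'⟩ := L.rg_enter C hc
  obtain ⟨t, rfl⟩ := on_iff hy
  have h1 := e1b C h hf k m t
  have h2 : E.d (g * v m) (g * v (k + 1) * L.x i ^ t) = E.d (v (k + 1) * L.x i ^ t) (v m) := by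
    rw [mul_assoc g, E.d_mul, E.d_comm]
  rw [h2] at hy'
  omega

/-- small projections mean small windows -/
theorem s_small {j : L.ι} {u p q : G} (h : L.D j u p q < Θ) :
    |L.s j u p q| ≤ ((T * Θ : ℕ) : ℤ) := by
  have h1 := L.rg_s_le j u p q
  have h2 : ((T * L.D j u p q : ℕ) : ℤ) ≤ ((T * Θ : ℕ) : ℤ) := by
    exact_mod_cast Nat.mul_le_mul_left T h.le
  push_cast at h2 ⊢
  linarith

/-- the window of the line number `k` of a translated broken line -/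
theorem win (C : L.Cone E Θ) (h : BW L i f v Q)
    (hf : ∀ k, ((10 * Q + 10 * (T * (Θ + θ + 1)) : ℕ) : ℤ) < |f k|) {e k m : ℕ} {g q : G}
    (hg : E.len g ≤ e) (hq : E.d (g * v m) q ≤ e) (hk : e ≤ k) (hk' : k + 1 + e ≤ m) :
    |L.s i (g * v (k + 1)) 1 q - f k| ≤ 2 * Q + 2 * ((T * Θ : ℕ) : ℤ) := by
  have h1 := s_small (e2a C h hf hg hk)
  have h2 := s_small (e2b C h hf hq hk')
  have h3 := h.all k m (by omega)
  have h4 : L.s i (g * v (k + 1)) g (g * v m) = L.s i (v (k + 1)) (v 0) (v m) := by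
    rw [← L.wf_s_mul i g (v (k + 1)) (v 0) (v m), h.v0, mul_one]
  have h5 := L.wf_s_add i (g * v (k + 1)) 1 g q
  have h6 := L.wf_s_add i (g * v (k + 1)) g (g * v m) q
  rw [abs_le] at h1 h2 h3 ⊢
  constructor <;> linarith [h1.1, h1.2, h2.1, h2.2, h3.1, h3.2]

/-- the numerical consequences -/
theorem numb {Q Θ T θ : ℕ} : ((4 * Q + 4 * (T * Θ) : ℕ) : ℤ) ≤
    ((10 * Q + 10 * (T * (Θ + θ + 1)) : ℕ) : ℤ) := by
  have : T * Θ ≤ T * (Θ + θ + 1) := Nat.mul_le_mul_left _ (by omega)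
  exact_mod_cast (by omega)

/-- existence of the matching line -/
theorem exm (C : L.Cone E Θ) (h : BW L i f v Q)
    (hf : ∀ k, ((10 * Q + 10 * (T * (Θ + θ + 1)) : ℕ) : ℤ) < |f k|) {i' : L.ι} {f' : ℕ → ℤ}
    {v' : ℕ → G} (h' : BW L i' f' v' Q) {e k m m' : ℕ} {g : G} (hg : E.len g ≤ e)
    (hq : E.d (g * v m) (v' m') ≤ e) (hk : e ≤ k) (hk' : k + 1 + e ≤ m) :
    ∃ l < m', i = i' ∧ (v' (l + 1))⁻¹ * (g * v (k + 1)) ∈ Subgroup.zpowers (L.x i') := by
  by_contra hc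
  push Not at hc
  have h1 := h'.oth i (g * v (k + 1)) m' (fun l hl => by
    rintro ⟨e1, e2⟩
    exact hc l hl e1 e2)
  rw [h'.v0] at h1
  have h2 := win C h hf hg hq hk hk'
  have h3 := abs_sub_abs_le_abs_sub (f k) (L.s i (g * v (k + 1)) 1 (v' m'))
  rw [abs_sub_comm] at h3
  have h4 := hf k
  have h5 := numb (Q := Q) (Θ := Θ) (T := T) (θ := θ)
  push_cast at h1 h2 h4 h5
  have h6 : (0 : ℤ) ≤ T * Θ := by positivity
  linarith

end one

section two

variable {E : GH G} {Θ Q : ℕ} {i : L.ι} {f f' : ℕ → ℤ} {v v' : ℕ → G}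

theorem mem_iff {g : G} {k l : ℕ}
    (h : (v' (l + 1))⁻¹ * (g * v (k + 1)) ∈ Subgroup.zpowers (L.x i)) :
    ∃ t : ℤ, g * v (k + 1) = v' (l + 1) * L.x i ^ t := by
  obtain ⟨t, ht⟩ := h
  have ht' : L.x i ^ t = (v' (l + 1))⁻¹ * (g * v (k + 1)) := ht
  exact ⟨t, by rw [ht']; group⟩

theorem mem_inv {g : G} {k l : ℕ}
    (h : (v' (l + 1))⁻¹ * (g * v (k + 1)) ∈ Subgroup.zpowers (L.x i)) :
    (v (k + 1))⁻¹ * (g⁻¹ * v' (l + 1)) ∈ Subgroup.zpowers (L.x i) := by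
  have := (Subgroup.zpowers (L.x i)).inv_mem h
  rwa [show ((v' (l + 1))⁻¹ * (g * v (k + 1)))⁻¹ = (v (k + 1))⁻¹ * (g⁻¹ * v' (l + 1)) by
    group] at this

/-- matching lines have windows close to each other -/
theorem closem (C : L.Cone E Θ) (h : BW L i f v Q)
    (hf : ∀ k, ((10 * Q + 10 * (T * (Θ + θ + 1)) : ℕ) : ℤ) < |f k|)
    (h' : BW L i f' v' Q) {e k l m m' : ℕ} {g : G} (hg : E.len g ≤ e)
    (hq : E.d (g * v m) (v' m') ≤ e) (hk : e ≤ k) (hk' : k + 1 + e ≤ m) (hl : l < m')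
    (hM : (v' (l + 1))⁻¹ * (g * v (k + 1)) ∈ Subgroup.zpowers (L.x i)) :
    |f k - f' l| ≤ 4 * Q + 2 * ((T * Θ : ℕ) : ℤ) := by
  obtain ⟨t, ht⟩ := mem_iff hM
  have h1 := win C h hf hg hq hk hk'
  rw [ht, L.wf_s_base, ← h'.v0] at h1
  have h2 := h'.all l m' hl
  rw [abs_le] at h1 h2 ⊢
  constructor <;> linarith [h1.1, h1.2, h2.1, h2.2]

/-- the matching preserves the order -/
theorem ordm (C : L.Cone E Θ) (h : BW L i f v Q)
    (hf : ∀ k, ((10 * Q + 10 * (T * (Θ + θ + 1)) : ℕ) : ℤ) < |f k|)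
    (h' : BW L i f' v' Q) {e : ℕ} {g : G} (hg : E.len g ≤ e) (k k' l l' : ℕ)
    (hM : (v' (l + 1))⁻¹ * (g * v (k + 1)) ∈ Subgroup.zpowers (L.x i))
    (hM' : (v' (l' + 1))⁻¹ * (g * v (k' + 1)) ∈ Subgroup.zpowers (L.x i))
    (hk : e ≤ k) (hkk : k < k') : l < l' := by
  obtain ⟨t, ht⟩ := mem_iff hM
  obtain ⟨t', ht'⟩ := mem_iff hM'
  by_contra hc
  rcases Nat.lt_or_ge l' l with hlt | hge
  · have h1 := h'.pre l l' t' hlt
    rw [← ht', ← L.wf_s_base i (v' (l + 1)) t, ← ht, h'.v0] at h1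
    have h2 := s_small (e2a C h hf hg hk)
    have h3 := h.aft k k' 0 hkk
    rw [zpow_zero, mul_one, ← L.wf_s_mul i g, h.v0, mul_one] at h3
    have h4 := L.wf_s_add i (g * v (k + 1)) 1 g (g * v (k' + 1))
    have h5 : |f k| ≤ ((4 * Q + 4 * (T * Θ) : ℕ) : ℤ) := by
      push_cast at h2 ⊢
      have h6 : (0 : ℤ) ≤ T * Θ := by positivity
      rw [abs_le] at h1 h2 h3 ⊢
      constructor <;> linarith [h1.1, h1.2, h2.1, h2.2, h3.1, h3.2]
    have h6 := hf k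
    have h7 := numb (Q := Q) (Θ := Θ) (T := T) (θ := θ)
    linarith
  · have he : l' = l := by omega
    subst he
    apply h.ne k k' hkk
    refine ⟨-t + t', ?_⟩
    have h1 : v (k + 1) = g⁻¹ * (v' (l' + 1) * L.x i ^ t) := by rw [← ht]; group
    have h2 : v (k' + 1) = g⁻¹ * (v' (l' + 1) * L.x i ^ t') := by rw [← ht']; group
    show L.x i ^ (-t + t') = _
    rw [h1, h2, zpow_add, zpow_neg]
    group

end two

end geo

theorem matchT (hGen : GenStmt) (hPcb : PcbStmt) : MatchStmt := by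
  intro G _ H c θ T L E Θ C hT i i' cs cs' f f' v v' ρ hB hB' hl hl' hf hf' e0 m m' g h hg hh hgh
  have B1 := mkBW L hGen hPcb hB hl hf
  have B2 := mkBW L hGen hPcb hB' hl' hf'
  have hthr : L.thr = T * (2 * c + θ + 1) := rfl
  have hcst : cst L Θ ρ = 1000 * (T * (c + θ + Θ + ρ + 1) + 1) := rfl
  set Q := T * (ρ + c + θ) + L.thr with hQ
  have hbig : 10 * Q + 10 * (T * (Θ + θ + 1)) ≤ cst L Θ ρ := by
    rw [hQ, hthr, hcst]
    nlinarith [Nat.zero_le (T * ρ), Nat.zero_le (T * c), Nat.zero_le (T * θ), Nat.zero_le (T * Θ),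
      Nat.zero_le T]
  have F1 : ∀ k, ((10 * Q + 10 * (T * (Θ + θ + 1)) : ℕ) : ℤ) < |f k| := fun k =>
    lt_of_le_of_lt (by exact_mod_cast hbig) (hf k)
  have F2 : ∀ k, ((10 * Q + 10 * (T * (Θ + θ + 1)) : ℕ) : ℤ) < |f' k| := fun k =>
    lt_of_le_of_lt (by exact_mod_cast hbig) (hf' k)
  have hq : E.d (g * v m) (v' m') ≤ e0 := by
    rw [hgh, E.d_comm]
    unfold GH.d
    rw [inv_mul_cancel_left]
    exact hh
  by_cases hr : 20 * e0 + 200 ≤ m
  · -- the lines are of the same type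
    obtain ⟨-, -, hii, -⟩ := exm C B1 F1 B2 hg hq (k := 10 * e0 + 100) (by omega) (by omega)
    subst hii
    have hg' : E.len g⁻¹ ≤ e0 := by rw [E.len_inv]; exact hg
    have hq' : E.d (g⁻¹ * v' m') (v m) ≤ e0 := by
      rw [← E.d_mul g, mul_inv_cancel_left, E.d_comm]
      exact hq
    obtain ⟨σ, hσ⟩ := match_comb (e := e0) (m := m) (m' := m')
      (M := fun k l => (v' (l + 1))⁻¹ * (g * v (k + 1)) ∈ Subgroup.zpowers (L.x i))
      (fun k h1 h2 => by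
        obtain ⟨l, hl, -, h3⟩ := exm C B1 F1 B2 hg hq h1 h2
        exact ⟨l, hl, h3⟩)
      (fun l h1 h2 => by
        obtain ⟨k, hk, -, h3⟩ := exm C B2 F2 B1 hg' hq' h1 h2
        refine ⟨k, hk, ?_⟩
        have := mem_inv h3
        rwa [inv_inv] at this)
      (fun k k' l l' h1 h2 h3 h4 => ordm C B1 F1 B2 hg k k' l l' h1 h2 h3 h4)
      (fun k k' l l' h1 h2 h3 h4 => ordm C B2 F2 B1 hg' l l' k k' (mem_inv h1) (mem_inv h2) h3 h4)
    refine ⟨σ, fun k h1 h2 => ?_⟩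
    obtain ⟨l, e1, e2, e3⟩ := hσ k (by omega) (by omega)
    refine ⟨l, e1, e2, rfl, ?_, e3⟩
    have h3 := closem C B1 F1 B2 hg hq (k := k) (by omega) (by omega) e2 e3
    have h4 : ((4 * Q + 4 * (T * Θ) : ℕ) : ℤ) ≤ (cst L Θ ρ : ℤ) :=
      numb.trans (by exact_mod_cast hbig)
    have h5 : (0 : ℤ) ≤ ((T * Θ : ℕ) : ℤ) := Int.natCast_nonneg _
    push_cast at h3 h4 h5 ⊢
    linarith
  · exact ⟨0, fun k h1 h2 => absurd h2 (by omega)⟩

end Pool.Agent.Y484.MON
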